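import Pool.Agent.H48.ER.Targets

/-! Row CON: paths in connected sets. -/

set_option autoImplicit false

open Pool.Agent.H48.ER

namespace Pool.Agent.H77.ER

theorem pf_CON (hFST : T_FST) : T_CON := by
  intro V G D x y hD hx hy
  set X : Set V := {u | u ∈ D ∧ ∃ (n : ℕ) (R : Set V), IP G n x u R ∧ R ⊆ D} with hX
  have hXD : X = D := by
    refine hD X (fun u hu => hu.1) ⟨x, hx, 0, {x}, IP.zero x, ?_⟩ ?_
    · intro v hv
      rw [Set.mem_singleton_iff.1 hv]
      exact hx
    · rintro u ⟨huD, n, R, hR, hRD⟩ w hw huw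
      refine ⟨hw, ?_⟩
      by_cases hwR : w ∈ R
      · obtain ⟨i, j, R1, R2, h1, _, _, hU, _, _⟩ := hR.split hwR
        exact ⟨i, R1, h1, fun v hv => hRD (hU ▸ Or.inl hv)⟩
      · obtain ⟨i, j, g, R1, R2, h1, _, hg, _, hU, _, _, hlast⟩ :=
          hFST V G n x u R {v | G.Adj w v} hR ⟨u, hR.right_mem, huw.symm⟩
        have h1R : R1 ⊆ R := fun v hv => hU ▸ Or.inl hv
        refine ⟨i + 1, insert w R1, h1.snoc (fun h => hwR (h1R h)) ?_, ?_⟩
        · intro v hv
          constructor
          · intro h
            exact hlast v hv h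
          · rintro rfl
            exact hg
        · intro v hv
          rcases hv with rfl | hv
          · exact hw
          · exact hRD (h1R hv)
  have hy' : y ∈ X := by rw [hXD]; exact hy
  exact hy'.2

end Pool.Agent.H77.ER
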