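import Pool.Agent.H77.ER.SPI

/-! Row SPC: the new vertex is a corner. -/

set_option autoImplicit false

open Pool.Agent.H48.ER

namespace Pool.Agent.H77.ER

variable {V : Type} {G : SimpleGraph V}

/-- a chordless path with three edges -/
theorem ip_three {p s t q : V} (h1 : G.Adj p s) (h2 : G.Adj s t) (h3 : G.Adj t q)
    (n1 : ¬ G.Adj p t) (n2 : ¬ G.Adj s q) (n3 : ¬ G.Adj p q) (hpq : p ≠ q) :
    ∃ R : Set V, IP G 3 p q R := by
  have hpt : p ≠ t := fun e => n3 (e ▸ h3)
  have hsq : s ≠ q := fun e => n3 (e ▸ h1)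
  have e1 : IP G 1 t q {t, q} := IP.edge h3
  have e2 := e1.cons (u := s) (by
    rintro (h | h)
    · exact h2.ne h
    · exact hsq h) (by
    rintro w (h | h)
    · rw [h]
      exact ⟨fun _ => rfl, fun _ => h2⟩
    · rw [Set.mem_singleton_iff.1 h]
      exact ⟨fun e => absurd e n2, fun e => absurd e.symm h3.ne⟩)
  have e3 := e2.cons (u := p) (by
    rintro (h | h | h)
    · exact h1.ne h
    · exact hpt h
    · exact hpq h) (by
    rintro w (h | h | h)
    · rw [h]
      exact ⟨fun _ => rfl, fun _ => h1⟩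
    · rw [h]
      exact ⟨fun e => absurd e n1, fun e => absurd e.symm h2.ne⟩
    · rw [Set.mem_singleton_iff.1 h]
      exact ⟨fun e => absurd e n3, fun e => absurd e.symm hsq⟩)
  exact ⟨_, e3⟩

/-- the third index -/
theorem fin3_others (i : Fin 3) : ∃ j k : Fin 3, j ≠ i ∧ k ≠ i ∧ j ≠ k ∧
    ∀ l : Fin 3, l ≠ i → l = j ∨ l = k := by
  revert i
  decide

/-- parity: a vertex which sees `r` and `a j` also sees `a k` -/
theorem spc_core {p q r s : V} {a b : Fin 3 → V} {n : Fin 3 → ℕ} {P : Fin 3 → Set V} {i j k : Fin 3}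
    {m : ℕ} {R : Set V} (hNOH : NOH G) (h : Prism (ctr G p q) a b n P)
    (ho : ∀ i, Odd (n i)) (hp : p = a i) (hji : j ≠ i) (hki : k ≠ i) (hjk : j ≠ k)
    (hR : IP (ctr G p q) m r (b i) R) (hRP : R = P i \ {p}) (hm : m + 1 = n i)
    (hs : ∀ g ∈ ver P, g ≠ p → g ≠ s)
    (hsn : ∀ g ∈ ver P, g ≠ p → G.Adj s g → g = r ∨ ∃ l, l ≠ i ∧ g = a l)
    (hsr : G.Adj s r) (hsj : G.Adj s (a j)) : G.Adj s (a k) := by
  by_contra hsk
  have hq := q_nmem h
  have hnq : ∀ v ∈ ver P, v ≠ q := fun v hv e => hq (e ▸ hv)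
  have hpi : p ∈ P i := hp ▸ h.a_mem i
  have hpne : ∀ l, l ≠ i → ∀ v ∈ P l, v ≠ p := fun l hl v hv => h.ne_of_mem hl hv hpi
  have hRne : ∀ v ∈ R, v ≠ p := by
    intro v hv
    rw [hRP] at hv
    exact hv.2
  have hRi : ∀ v ∈ R, v ∈ P i := by
    intro v hv
    rw [hRP] at hv
    exact hv.1
  have hcg : ∀ x ∈ ver P, x ≠ p → ∀ y ∈ ver P, y ≠ p → (G.Adj x y ↔ (ctr G p q).Adj x y) :=
    fun x hx hxp y hy hyp => (ctr_adj_of_ne hxp (hnq x hx) hyp (hnq y hy)).symm
  have g1 : IP G m r (b i) R := hR.congr fun x hx y hy =>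
    hcg x (mem_ver (hRi x hx)) (hRne x hx) y (mem_ver (hRi y hy)) (hRne y hy)
  have g2 : IP G (n k) (b k) (a k) (P k) := ((h.ip k).congr fun x hx y hy =>
    hcg x (mem_ver hx) (hpne k hki x hx) y (mem_ver hy) (hpne k hki y hy)).rev
  have hd : Disjoint R (P k) := by
    rw [Set.disjoint_left]
    intro v hv hv2
    exact Set.disjoint_left.1 (h.dis i k hki.symm) (hRi v hv) hv2
  have hx : XE G R (P k) (b i) (b k) := by
    intro x hx y hy
    rw [hcg x (mem_ver (hRi x hx)) (hRne x hx) y (mem_ver hy) (hpne k hki y hy),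
      h.adj i k hki.symm x (hRi x hx) y hy]
    constructor
    · rintro (e | e)
      · exact absurd (e.1.trans hp.symm) (hRne x hx)
      · exact e
    · intro e
      exact Or.inr e
  have g3 := g1.append g2 hd hx
  have haj : a j ∈ P j := h.a_mem j
  have hajp : a j ≠ p := hpne j hji _ haj
  have g4 := g3.snoc (u := a j) (by
    rintro (e | e)
    · exact h.ne_of_mem hji haj (hRi _ e) rfl
    · exact h.ne_of_mem hjk haj e rfl) (by
    rintro w (hw | hw)
    · rw [hcg _ (mem_ver haj) hajp w (mem_ver (hRi w hw)) (hRne w hw),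
        h.adj j i hji _ haj w (hRi w hw)]
      constructor
      · rintro (e | e)
        · exact absurd (e.2.trans hp.symm) (hRne w hw)
        · exact absurd e.1 (h.a_ne_b j j)
      · intro e
        exact absurd rfl (h.ne_of_mem hki (h.a_mem k) (e ▸ hRi w hw))
    · rw [hcg _ (mem_ver haj) hajp w (mem_ver hw) (hpne k hki w hw),
        h.adj j k hjk _ haj w hw]
      constructor
      · rintro (e | e)
        · exact e.2
        · exact absurd e.1 (h.a_ne_b j j)
      · intro e
        exact Or.inl ⟨rfl, e⟩)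
  have hmem : ∀ w ∈ insert (a j) (R ∪ P k), w ∈ ver P ∧ w ≠ p := by
    rintro w (e | e | e)
    · rw [e]
      exact ⟨mem_ver haj, hajp⟩
    · exact ⟨mem_ver (hRi w e), hRne w e⟩
    · exact ⟨mem_ver e, hpne k hki w e⟩
  have hev := hNOH _ _ _ s _ g4 (by have := h.pos k; omega)
    (fun e => hs s (hmem s e).1 (hmem s e).2 rfl) hsr hsj (by
    intro w hw hsw
    rcases hsn w (hmem w hw).1 (hmem w hw).2 hsw with e | ⟨l, hl, e⟩
    · exact Or.inl e
    · by_cases hlj : l = j
      · exact Or.inr (e.trans (by rw [hlj]))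
      · exfalso
        have hlk : l = k := by
          revert hl hlj hji hki hjk
          clear * -
          revert i j k l
          decide
        exact hsk (by rw [← hlk, ← e]; exact hsw))
  have o1 := ho i
  have o2 := ho k
  rw [← hm] at o1
  rcases o1 with ⟨c1, hc1⟩
  rcases o2 with ⟨c2, hc2⟩
  rcases hev with ⟨c3, hc3⟩
  omega

theorem pf_SPC : T_SPC := by
  intro V G p q a b n P i hNOH hNOP hE h ho hp
  have hpq : p ≠ q := hE.1
  have hq := q_nmem h
  have hnq : ∀ v ∈ ver P, v ≠ q := fun v hv e => hq (e ▸ hv)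
  refine ⟨hq, ?_⟩
  obtain ⟨j, k, hji, hki, hjk, hall⟩ := fin3_others i
  have hpi : p ∈ P i := hp ▸ h.a_mem i
  have hpne : ∀ l, l ≠ i → ∀ v ∈ P l, v ≠ p := fun l hl v hv => h.ne_of_mem hl hv hpi
  obtain ⟨m, hm⟩ : ∃ m, n i = m + 1 := ⟨n i - 1, by have := h.pos i; omega⟩
  have hip := h.ip i
  rw [hm, ← hp] at hip
  obtain ⟨r, hpr, hrP, hR, hru⟩ := hip.tail
  have hrp : r ≠ p := fun e => (ctr G p q).loopless.irrefl p (e ▸ hpr)
  have hrv : r ∈ ver P := mem_ver hrP
  have hajp : ∀ l, l ≠ i → a l ≠ p := fun l hl => hpne l hl _ (h.a_mem l)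
  have hajr : ∀ l, l ≠ i → a l ≠ r := fun l hl => h.ne_of_mem hl (h.a_mem l) hrP
  -- the neighbours of `p` in the prism
  have hnb : ∀ g ∈ ver P, (ctr G p q).Adj p g → g = r ∨ ∃ l, l ≠ i ∧ g = a l := by
    rintro g ⟨l, hl⟩ hg
    by_cases hli : i = l
    · subst hli
      exact Or.inl (hru g hl hg)
    · rcases (h.adj i l hli p hpi g hl).1 hg with e | e
      · exact Or.inr ⟨l, fun e' => hli e'.symm, e.2⟩
      · exact absurd (hp.symm.trans e.1) (h.a_ne_b i i)
  have hpa : ∀ l, l ≠ i → (ctr G p q).Adj p (a l) := by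
    intro l hl
    have e := h.a_adj (Ne.symm hl)
    rw [← hp] at e
    exact e
  have hR' : IP G m r (b i) (P i \ {p}) := hR.congr fun x hx y hy =>
    (ctr_adj_of_ne (fun e => hx.2 e) (hnq x (mem_ver hx.1)) (fun e => hy.2 e)
      (hnq y (mem_ver hy.1))).symm
  refine ⟨r, m, P i \ {p}, hR', fun e => e.2 rfl, ?_, hm.symm, ?_⟩
  · ext v
    constructor
    · intro hv
      by_cases e : v = p
      · exact Or.inl e
      · exact Or.inr ⟨hv, e⟩
    · rintro (e | e)
      · rw [e]
        exact hpi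
      · exact e.1
  · have hpg : ∀ g ∈ ver P, g ≠ p → G.Adj p g → g = r ∨ ∃ l, l ≠ i ∧ g = a l :=
      fun g hg hgp e => hnb g hg ((ctr_adj_left hgp (hnq g hg) hpq).2 (Or.inl e))
    have hqg : ∀ g ∈ ver P, g ≠ p → G.Adj q g → g = r ∨ ∃ l, l ≠ i ∧ g = a l :=
      fun g hg hgp e => hnb g hg ((ctr_adj_left hgp (hnq g hg) hpq).2 (Or.inr e))
    have hr2 := (ctr_adj_left hrp (hnq r hrv) hpq).1 hpr
    have ha2 : ∀ l, l ≠ i → G.Adj p (a l) ∨ G.Adj q (a l) := fun l hl =>
      (ctr_adj_left (hajp l hl) (hnq _ (mem_ver (h.a_mem l))) hpq).1 (hpa l hl)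
    have hor : ∀ l, l ≠ i → l = j ∨ l = k := hall
    have n1 : ¬ (G.Adj p r ∧ G.Adj p (a j) ∧ G.Adj p (a k)) := by
      rintro ⟨e1, e2, e3⟩
      refine no_p hNOP hpq h ho fun g hg hgp hadj => ?_
      rcases hnb g hg hadj with e | ⟨l, hl, e⟩
      · rw [e]
        exact e1
      · rw [e]
        rcases hor l hl with e' | e'
        · rw [e']
          exact e2
        · rw [e']
          exact e3
    have n2 : ¬ (G.Adj q r ∧ G.Adj q (a j) ∧ G.Adj q (a k)) := by
      rintro ⟨e1, e2, e3⟩
      refine no_q hNOP hpq h ho fun g hg hgp hadj => ?_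
      rcases hnb g hg hadj with e | ⟨l, hl, e⟩
      · rw [e]
        exact e1
      · rw [e]
        rcases hor l hl with e' | e'
        · rw [e']
          exact e2
        · rw [e']
          exact e3
    have hajk : G.Adj (a j) (a k) :=
      (ctr_adj_of_ne (hajp j hji) (hnq _ (mem_ver (h.a_mem j))) (hajp k hki)
        (hnq _ (mem_ver (h.a_mem k)))).1 (h.a_adj hjk)
    -- no path with three edges
    have n3 : ∀ s t : V, G.Adj s t → G.Adj p s → G.Adj q t → ¬ G.Adj p t → ¬ G.Adj q s →
        False := by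
      intro s t hst h1 h2 h3 h4
      obtain ⟨T, hT⟩ := ip_three h1 hst h2.symm h3 (fun e => h4 e.symm) hE.2.1 hpq
      have := hE.2.2 3 T hT
      exact absurd this (by decide)
    have hcp : ∀ j k : Fin 3, j ≠ i → k ≠ i → j ≠ k → G.Adj p r → G.Adj p (a j) →
        G.Adj p (a k) := fun j k hji hki hjk e1 e2 =>
      spc_core hNOH h ho hp hji hki hjk hR rfl hm.symm (fun g _ hgp => hgp) hpg e1 e2
    have hcq : ∀ j k : Fin 3, j ≠ i → k ≠ i → j ≠ k → G.Adj q r → G.Adj q (a j) →
        G.Adj q (a k) := fun j k hji hki hjk e1 e2 =>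
      spc_core hNOH h ho hp hji hki hjk hR rfl hm.symm (fun g hg _ => hnq g hg) hqg e1 e2
    have hdec : (G.Adj p (a j) ∧ G.Adj p (a k)) ∨ (G.Adj q (a j) ∧ G.Adj q (a k)) := by
      by_contra hcon
      push Not at hcon
      by_cases e1 : G.Adj p (a j)
      · have e2 := hcon.1 e1
        have e3 := (ha2 k hki).resolve_left e2
        have e4 : ¬ G.Adj q (a j) := fun e => hcon.2 e e3
        exact n3 (a j) (a k) hajk e1 e3 e2 e4
      · have e2 := (ha2 j hji).resolve_left e1
        have e3 := hcon.2 e2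
        have e4 := (ha2 k hki).resolve_right e3
        exact n3 (a k) (a j) hajk.symm e4 e2 e1 e3
    rcases hdec with ⟨e1, e2⟩ | ⟨e1, e2⟩
    · left
      have e3 : ¬ G.Adj p r := fun e => n1 ⟨e, e1, e2⟩
      have e4 : G.Adj q r := hr2.resolve_left e3
      have e5 : ¬ G.Adj q (a j) := fun e => n2 ⟨e4, e, hcq j k hji hki hjk e4 e⟩
      have e6 : ¬ G.Adj q (a k) := fun e => n2 ⟨e4, hcq k j hki hji hjk.symm e4 e, e⟩
      constructor
      · intro g hg hgp
        constructor
        · intro hadj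
          rcases hpg g hg hgp hadj with e | e
          · exact absurd (e ▸ hadj) e3
          · exact e
        · rintro ⟨l, hl, e⟩
          rw [e]
          rcases hor l hl with e' | e'
          · rw [e']
            exact e1
          · rw [e']
            exact e2
      · intro g hg hgp
        constructor
        · intro hadj
          rcases hqg g hg hgp hadj with e | ⟨l, hl, e⟩
          · exact e
          · exfalso
            rw [e] at hadj
            rcases hor l hl with e' | e'
            · rw [e'] at hadj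
              exact e5 hadj
            · rw [e'] at hadj
              exact e6 hadj
        · intro e
          rw [e]
          exact e4
    · right
      have e3 : ¬ G.Adj q r := fun e => n2 ⟨e, e1, e2⟩
      have e4 : G.Adj p r := hr2.resolve_right e3
      have e5 : ¬ G.Adj p (a j) := fun e => n1 ⟨e4, e, hcp j k hji hki hjk e4 e⟩
      have e6 : ¬ G.Adj p (a k) := fun e => n1 ⟨e4, hcp k j hki hji hjk.symm e4 e, e⟩
      constructor
      · intro g hg hgp
        constructor
        · intro hadj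
          rcases hqg g hg hgp hadj with e | e
          · exact absurd (e ▸ hadj) e3
          · exact e
        · rintro ⟨l, hl, e⟩
          rw [e]
          rcases hor l hl with e' | e'
          · rw [e']
            exact e1
          · rw [e']
            exact e2
      · intro g hg hgp
        constructor
        · intro hadj
          rcases hpg g hg hgp hadj with e | ⟨l, hl, e⟩
          · exact e
          · exfalso
            rw [e] at hadj
            rcases hor l hl with e' | e'
            · rw [e'] at hadj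
              exact e5 hadj
            · rw [e'] at hadj
              exact e6 hadj
        · intro e
          rw [e]
          exact e4

end Pool.Agent.H77.ER
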