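import Pool.Agent.H48.ER.Targets

/-! Row TRI: the neighbours of a vertex on a path. -/

set_option autoImplicit false

open Pool.Agent.H48.ER

namespace Pool.Agent.H77.ER

/-- a segment of a path -/
theorem seg {V : Type} {G : SimpleGraph V} {n : ℕ} {g : ℕ → V}
    (gi : ∀ i j, i ≤ n → j ≤ n → g i = g j → i = j)
    (ga : ∀ i j, i ≤ n → j ≤ n → (G.Adj (g i) (g j) ↔ i + 1 = j ∨ j + 1 = i))
    {p q : ℕ} (hpq : p ≤ q) (hq : q ≤ n) :
    IP G (q - p) (g p) (g q) {v | ∃ l, p ≤ l ∧ l ≤ q ∧ g l = v} := by
  refine ⟨fun l => g (p + l), by simp, ?_, ?_, ?_, ?_⟩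
  · show g (p + (q - p)) = g q
    congr 1
    omega
  · intro i j hi hj e
    have := gi (p + i) (p + j) (by omega) (by omega) e
    omega
  · intro i j hi hj
    show G.Adj (g (p + i)) (g (p + j)) ↔ _
    rw [ga _ _ (by omega) (by omega)]
    omega
  · ext v
    constructor
    · rintro ⟨l, h1, h2, rfl⟩
      refine ⟨l - p, by omega, ?_⟩
      show g (p + (l - p)) = g l
      congr 1
      omega
    · rintro ⟨l, h1, rfl⟩
      exact ⟨p + l, by omega, by omega, rfl⟩

theorem pf_TRI : T_TRI := by
  classical
  intro V G n x y c R hR hc hex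
  obtain ⟨g, g0, gn, gi, ga, hRe⟩ := hR
  have hex0 : ∃ i, i ≤ n ∧ G.Adj c (g i) := by
    obtain ⟨w, hw, hcw⟩ := hex
    rw [hRe] at hw
    obtain ⟨i, hi, rfl⟩ := hw
    exact ⟨i, hi, hcw⟩
  have hexr : ∃ j, j ≤ n ∧ G.Adj c (g (n - j)) := by
    obtain ⟨i, hi, hci⟩ := hex0
    refine ⟨n - i, by omega, ?_⟩
    have : n - (n - i) = i := by omega
    rw [this]
    exact hci
  -- the first and the last index
  set i := Nat.find hex0 with hidef
  set j' := Nat.find hexr with hjdef
  have hi : i ≤ n ∧ G.Adj c (g i) := Nat.find_spec hex0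
  have hj' : j' ≤ n ∧ G.Adj c (g (n - j')) := Nat.find_spec hexr
  have himin : ∀ l, l ≤ n → G.Adj c (g l) → i ≤ l := fun l hl hcl => Nat.find_min' hex0 ⟨hl, hcl⟩
  have hjmax : ∀ l, l ≤ n → G.Adj c (g l) → l ≤ n - j' := by
    intro l hl hcl
    have : j' ≤ n - l := by
      refine Nat.find_min' hexr ⟨by omega, ?_⟩
      have e : n - (n - l) = l := by omega
      rw [e]
      exact hcl
    omega
  clear_value i j'
  obtain ⟨j, hjj⟩ : ∃ j, j = n - j' := ⟨_, rfl⟩
  rw [← hjj] at hjmax
  have hj : j ≤ n ∧ G.Adj c (g j) := ⟨by omega, by rw [hjj]; exact hj'.2⟩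
  have hij : i ≤ j := himin j hj.1 hj.2
  have hP1 : IP G i x (g i) {v | ∃ l, 0 ≤ l ∧ l ≤ i ∧ g l = v} := by
    have := seg gi ga (Nat.zero_le i) hi.1
    rw [g0, Nat.sub_zero] at this
    exact this
  have hP2 : ∀ q, q ≤ n → IP G (n - q) (g q) y {v | ∃ l, q ≤ l ∧ l ≤ n ∧ g l = v} := by
    intro q hq
    have := seg gi ga hq le_rfl
    rw [gn] at this
    exact this
  rcases Nat.lt_or_ge i j with hlt | hge
  · rcases Nat.lt_or_ge (i + 1) j with hlt2 | hge2
    · -- not adjacent
      refine Or.inr (Or.inr ⟨g i, g j, i, n - j, _, _, hP1, hP2 j hj.1, by omega, ?_, ?_, ?_, ?_,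
        ?_, ?_⟩)
      · rintro v ⟨l, _, hl, rfl⟩
        rw [hRe]
        exact ⟨l, by omega, rfl⟩
      · rintro v ⟨l, _, hl, rfl⟩
        rw [hRe]
        exact ⟨l, by omega, rfl⟩
      · rw [Set.disjoint_left]
        rintro v ⟨l, _, hl, rfl⟩ ⟨l', hl1, hl2, e⟩
        have := gi l' l (by omega) (by omega) e
        omega
      · rintro a ⟨l, _, hl, rfl⟩ b ⟨l', hl1, hl2, rfl⟩ hab
        rw [ga l l' (by omega) (by omega)] at hab
        omega
      · rintro w ⟨l, _, hl, rfl⟩
        constructor
        · intro h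
          have := himin l (by omega) h
          have e : l = i := by omega
          rw [e]
        · intro e
          rw [e]
          exact hi.2
      · rintro w ⟨l, hl1, hl2, rfl⟩
        constructor
        · intro h
          have := hjmax l (by omega) h
          have e : l = j := by omega
          rw [e]
        · intro e
          rw [e]
          exact hj.2
    · -- adjacent
      have hji : j = i + 1 := by omega
      subst hji
      refine Or.inr (Or.inl ⟨g i, g (i + 1), i, n - (i + 1), _, _, hP1, hP2 (i + 1) hj.1,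
        by omega, ?_, ?_, ?_, ?_⟩)
      · rw [hRe]
        ext v
        constructor
        · rintro (⟨l, _, hl, rfl⟩ | ⟨l, _, hl, rfl⟩)
          · exact ⟨l, by omega, rfl⟩
          · exact ⟨l, by omega, rfl⟩
        · rintro ⟨l, hl, rfl⟩
          rcases Nat.lt_or_ge i l with h | h
          · exact Or.inr ⟨l, by omega, hl, rfl⟩
          · exact Or.inl ⟨l, Nat.zero_le _, h, rfl⟩
      · rw [Set.disjoint_left]
        rintro v ⟨l, _, hl, rfl⟩ ⟨l', hl1, hl2, e⟩
        have := gi l' l (by omega) (by omega) e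
        omega
      · rintro a ⟨l, _, hl, rfl⟩ b ⟨l', hl1, hl2, rfl⟩
        rw [ga l l' (by omega) (by omega)]
        constructor
        · intro h
          have e1 : l = i := by omega
          have e2 : l' = i + 1 := by omega
          rw [e1, e2]
          exact ⟨rfl, rfl⟩
        · rintro ⟨h1, h2⟩
          have e1 := gi l i (by omega) (by omega) h1
          have e2 := gi l' (i + 1) (by omega) (by omega) h2
          omega
      · intro w hw
        rw [hRe] at hw
        obtain ⟨l, hl, rfl⟩ := hw
        constructor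
        · intro h
          have h1 := himin l hl h
          have h2 := hjmax l hl h
          rcases Nat.lt_or_ge i l with h3 | h3
          · have e : l = i + 1 := by omega
            right
            rw [e]
          · have e : l = i := by omega
            left
            rw [e]
        · rintro (e | e)
          · rw [e]
            exact hi.2
          · rw [e]
            exact hj.2
  · -- one neighbour
    have hji : i = j := by omega
    refine Or.inl ⟨g i, i, n - i, _, _, hP1, hP2 i hi.1, by omega, ?_, ?_, ?_, ?_⟩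
    · rw [hRe]
      ext v
      constructor
      · rintro (⟨l, _, hl, rfl⟩ | ⟨l, _, hl, rfl⟩)
        · exact ⟨l, by omega, rfl⟩
        · exact ⟨l, by omega, rfl⟩
      · rintro ⟨l, hl, rfl⟩
        rcases Nat.lt_or_ge i l with h | h
        · exact Or.inr ⟨l, by omega, hl, rfl⟩
        · exact Or.inl ⟨l, Nat.zero_le _, h, rfl⟩
    · ext v
      constructor
      · rintro ⟨⟨l, _, hl, rfl⟩, ⟨l', hl1, hl2, e⟩⟩
        have := gi l' l (by omega) (by omega) e
        have e2 : l = i := by omega
        rw [e2]
        rfl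
      · intro hv
        rw [Set.mem_singleton_iff.1 hv]
        exact ⟨⟨i, Nat.zero_le _, le_rfl, rfl⟩, ⟨i, le_rfl, hi.1, rfl⟩⟩
    · rintro a ⟨⟨l, _, hl, rfl⟩, ha⟩ b ⟨⟨l', hl1, hl2, rfl⟩, hb⟩ hab
      rw [ga l l' (by omega) (by omega)] at hab
      have h1 : l ≠ i := fun h => ha (by rw [h]; rfl)
      have h2 : l' ≠ i := fun h => hb (by rw [h]; rfl)
      omega
    · intro w hw
      rw [hRe] at hw
      obtain ⟨l, hl, rfl⟩ := hw
      constructor
      · intro h
        have h1 := himin l hl h
        have h2 := hjmax l hl h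
        have e : l = i := by omega
        rw [e]
      · intro e
        rw [e]
        exact hi.2

end Pool.Agent.H77.ER
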