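import Pool.Agent.H48.ER.Targets

/-! Row SPI: the new vertex is an interior vertex of a rung. -/

set_option autoImplicit false

open Pool.Agent.H48.ER

namespace Pool.Agent.H77.ER

variable {V : Type} {G : SimpleGraph V}

/-- every vertex of a path with at least one edge has a neighbour in it -/
theorem ip_exists_adj {n : ℕ} {x y v : V} {R : Set V} (h : IP G n x y R) (hn : 1 ≤ n)
    (hv : v ∈ R) : ∃ w ∈ R, G.Adj v w := by
  obtain ⟨g, g0, gn, gi, ga, hR⟩ := h
  rw [hR] at hv
  obtain ⟨i, hi, rfl⟩ := hv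
  rcases Nat.eq_zero_or_pos i with h0 | h0
  · refine ⟨g (i + 1), by rw [hR]; exact ⟨i + 1, by omega, rfl⟩, ?_⟩
    rw [ga _ _ (by omega) (by omega)]
    omega
  · refine ⟨g (i - 1), by rw [hR]; exact ⟨i - 1, by omega, rfl⟩, ?_⟩
    rw [ga _ _ (by omega) (by omega)]
    omega

theorem q_nmem {p q : V} {a b : Fin 3 → V} {n : Fin 3 → ℕ} {P : Fin 3 → Set V}
    (h : Prism (ctr G p q) a b n P) : q ∉ ver P := by
  rintro ⟨j, hj⟩
  obtain ⟨w, _, hw⟩ := ip_exists_adj (h.ip j) (h.pos j) hj
  exact ctr_not_adj hw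

/-- `p` is not adjacent in `G` to all its neighbours in the odd prism -/
theorem no_p {p q : V} {a b : Fin 3 → V} {n : Fin 3 → ℕ} {P : Fin 3 → Set V} (hG : NOP G)
    (hpq : p ≠ q) (h : Prism (ctr G p q) a b n P) (ho : ∀ i, Odd (n i))
    (hall : ∀ g ∈ ver P, g ≠ p → (ctr G p q).Adj p g → G.Adj p g) : False := by
  have hq := q_nmem h
  have key : ∀ g ∈ ver P, G.Adj p g ↔ (ctr G p q).Adj p g := by
    intro g hg
    by_cases hgp : g = p
    · rw [hgp]
      constructor
      · intro e
        exact absurd e (G.loopless.irrefl p)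
      · intro e
        exact absurd e ((ctr G p q).loopless.irrefl p)
    · have hgq : g ≠ q := fun e => hq (e ▸ hg)
      constructor
      · intro e
        exact (ctr_adj_left hgp hgq hpq).2 (Or.inl e)
      · exact hall g hg hgp
  refine hG a b n P (h.congr ?_) ho
  intro u hu v hv
  by_cases hup : u = p
  · rw [hup]
    exact key v hv
  · by_cases hvp : v = p
    · rw [hvp, SimpleGraph.adj_comm, SimpleGraph.adj_comm (ctr G p q)]
      exact key u hu
    · have h1 : u ≠ q := fun e => hq (e ▸ hu)
      have h2 : v ≠ q := fun e => hq (e ▸ hv)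
      exact (ctr_adj_of_ne hup h1 hvp h2).symm

/-- `q` is not adjacent in `G` to all neighbours of `p` in the odd prism -/
theorem no_q {p q : V} {a b : Fin 3 → V} {n : Fin 3 → ℕ} {P : Fin 3 → Set V} (hG : NOP G)
    (hpq : p ≠ q) (h : Prism (ctr G p q) a b n P) (ho : ∀ i, Odd (n i))
    (hall : ∀ g ∈ ver P, g ≠ p → (ctr G p q).Adj p g → G.Adj q g) : False := by
  classical
  have hq := q_nmem h
  have key : ∀ g ∈ ver P, g ≠ p → (G.Adj q g ↔ (ctr G p q).Adj p g) := by
    intro g hg hgp
    have hgq : g ≠ q := fun e => hq (e ▸ hg)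
    constructor
    · intro e
      exact (ctr_adj_left hgp hgq hpq).2 (Or.inr e)
    · exact hall g hg hgp
  have hm := h.map (G' := G) (fun v => if v = p then q else v) ?_ ?_
  · exact hG _ _ _ _ hm ho
  · intro u hu v hv e
    by_cases hup : u = p <;> by_cases hvp : v = p
    · rw [hup, hvp]
    · simp only [hup, hvp, if_true, if_false] at e
      exact absurd (e ▸ hv) hq
    · simp only [hup, hvp, if_true, if_false] at e
      exact absurd (e ▸ hu) hq
    · simp only [hup, hvp, if_false] at e
      exact e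
  · intro u hu v hv
    by_cases hup : u = p <;> by_cases hvp : v = p
    · simp only [hup, hvp, if_true]
      constructor
      · intro e
        exact absurd e (G.loopless.irrefl q)
      · intro e
        exact absurd e ((ctr G p q).loopless.irrefl p)
    · simp only [hup, hvp, if_true, if_false]
      exact key v hv hvp
    · simp only [hup, hvp, if_true, if_false]
      rw [SimpleGraph.adj_comm, SimpleGraph.adj_comm (ctr G p q)]
      exact key u hu hup
    · simp only [hup, hvp, if_false]
      have h1 : u ≠ q := fun e => hq (e ▸ hu)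
      have h2 : v ≠ q := fun e => hq (e ▸ hv)
      exact (ctr_adj_of_ne hup h1 hvp h2).symm

theorem pf_SPI : T_SPI := by
  intro V G p q a b n P i hNOH hNOP hE h ho hp hpa hpb
  have hpq : p ≠ q := hE.1
  have hq := q_nmem h
  refine ⟨hq, ?_⟩
  obtain ⟨k', m', R1, R2, h1, h2, hkm, hU, hI, hNE⟩ := (h.ip i).split hp
  obtain ⟨k, rfl⟩ : ∃ k, k' = k + 1 := by
    cases k' with
    | zero => exact absurd (h1.eq_of_zero.1).symm hpa
    | succ k => exact ⟨k, rfl⟩
  obtain ⟨m, rfl⟩ : ∃ m, m' = m + 1 := by
    cases m' with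
    | zero => exact absurd h2.eq_of_zero.1 hpb
    | succ m => exact ⟨m, rfl⟩
  obtain ⟨w, hpw, hwR, hW, hwu⟩ := h2.tail
  obtain ⟨u, hpu, huR, hL, huu⟩ := h1.rev.tail
  have hR1 : R1 ⊆ P i := fun v hv => hU ▸ Or.inl hv
  have hR2 : R2 ⊆ P i := fun v hv => hU ▸ Or.inr hv
  have hup : u ≠ p := fun e => (ctr G p q).loopless.irrefl p (e ▸ hpu)
  have hwp : w ≠ p := fun e => (ctr G p q).loopless.irrefl p (e ▸ hpw)
  have huv : u ∈ ver P := mem_ver (hR1 huR)
  have hwv : w ∈ ver P := mem_ver (hR2 hwR)
  have hnq : ∀ v ∈ ver P, v ≠ q := fun v hv e => hq (e ▸ hv)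
  -- the neighbours of `p` in the prism
  have hnb : ∀ g ∈ ver P, (ctr G p q).Adj p g → g = u ∨ g = w := by
    rintro g ⟨j, hj⟩ hg
    by_cases hji : i = j
    · subst hji
      rw [← hU] at hj
      rcases hj with hj | hj
      · exact Or.inl (huu g hj hg)
      · exact Or.inr (hwu g hj hg)
    · rcases (h.adj i j hji p hp g hj).1 hg with e | e
      · exact absurd e.1 hpa
      · exact absurd e.1 hpb
  have hin : ∀ A : Set V, A ⊆ P i → p ∉ A → ∀ x ∈ A, ∀ y ∈ A,
      G.Adj x y ↔ (ctr G p q).Adj x y := by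
    intro A hA hpA x hx y hy
    have e1 : x ≠ p := fun e => hpA (e ▸ hx)
    have e2 : y ≠ p := fun e => hpA (e ▸ hy)
    exact (ctr_adj_of_ne e1 (hnq x (mem_ver (hA hx))) e2 (hnq y (mem_ver (hA hy)))).symm
  have hpL : p ∉ R1 \ {p} := fun e => e.2 rfl
  have hpR : p ∉ R2 \ {p} := fun e => e.2 rfl
  refine ⟨u, w, k, m, R1 \ {p}, R2 \ {p},
    (hL.congr (hin _ (fun v hv => hR1 hv.1) hpL)).rev,
    hW.congr (hin _ (fun v hv => hR2 hv.1) hpR), hpL, hpR, ?_, by omega, ?_, ?_, ?_⟩
  · have hpR1 : p ∈ R1 := h1.right_mem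
    rw [← hU]
    ext v
    constructor
    · rintro (hv | hv)
      · by_cases e : v = p
        · exact Or.inl (Or.inr e)
        · exact Or.inl (Or.inl ⟨hv, e⟩)
      · by_cases e : v = p
        · exact Or.inl (Or.inr e)
        · exact Or.inr ⟨hv, e⟩
    · rintro ((hv | hv) | hv)
      · exact Or.inl hv.1
      · rw [Set.mem_singleton_iff.1 hv]
        exact Or.inl hpR1
      · exact Or.inr hv.1
  · rw [Set.disjoint_left]
    rintro v ⟨hv1, hv2⟩ ⟨hv3, _⟩
    have : v ∈ R1 ∩ R2 := ⟨hv1, hv3⟩
    rw [hI] at this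
    exact hv2 this
  · intro x hx y hy hxy
    refine hNE x hx y hy ?_
    exact (ctr_adj_of_ne (fun e => hx.2 e) (hnq x (mem_ver (hR1 hx.1)))
      (fun e => hy.2 e) (hnq y (mem_ver (hR2 hy.1)))).2 hxy
  · have hpg : ∀ g ∈ ver P, g ≠ p → G.Adj p g → g = u ∨ g = w := fun g hg hgp e =>
      hnb g hg ((ctr_adj_left hgp (hnq g hg) hpq).2 (Or.inl e))
    have hqg : ∀ g ∈ ver P, g ≠ p → G.Adj q g → g = u ∨ g = w := fun g hg hgp e =>
      hnb g hg ((ctr_adj_left hgp (hnq g hg) hpq).2 (Or.inr e))
    have hu2 := (ctr_adj_left hup (hnq u huv) hpq).1 hpu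
    have hw2 := (ctr_adj_left hwp (hnq w hwv) hpq).1 hpw
    have n1 : ¬ (G.Adj p u ∧ G.Adj p w) := by
      rintro ⟨e1, e2⟩
      refine no_p hNOP hpq h ho fun g hg hgp hadj => ?_
      rcases hnb g hg hadj with rfl | rfl
      · exact e1
      · exact e2
    have n2 : ¬ (G.Adj q u ∧ G.Adj q w) := by
      rintro ⟨e1, e2⟩
      refine no_q hNOP hpq h ho fun g hg hgp hadj => ?_
      rcases hnb g hg hadj with rfl | rfl
      · exact e1
      · exact e2
    by_cases e : G.Adj p u
    · have e1 : ¬ G.Adj p w := fun e' => n1 ⟨e, e'⟩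
      have e2 : G.Adj q w := hw2.resolve_left e1
      have e3 : ¬ G.Adj q u := fun e' => n2 ⟨e', e2⟩
      left
      constructor
      · intro g hg hgp
        constructor
        · intro hadj
          rcases hpg g hg hgp hadj with e4 | e4
          · exact e4
          · exact absurd (e4 ▸ hadj) e1
        · intro e4
          rw [e4]
          exact e
      · intro g hg hgp
        constructor
        · intro hadj
          rcases hqg g hg hgp hadj with e4 | e4
          · exact absurd (e4 ▸ hadj) e3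
          · exact e4
        · intro e4
          rw [e4]
          exact e2
    · have e1 : G.Adj q u := hu2.resolve_left e
      have e2 : ¬ G.Adj q w := fun e' => n2 ⟨e1, e'⟩
      have e3 : G.Adj p w := hw2.resolve_right e2
      right
      constructor
      · intro g hg hgp
        constructor
        · intro hadj
          rcases hqg g hg hgp hadj with e4 | e4
          · exact e4
          · exact absurd (e4 ▸ hadj) e2
        · intro e4
          rw [e4]
          exact e1
      · intro g hg hgp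
        constructor
        · intro hadj
          rcases hpg g hg hgp hadj with e4 | e4
          · exact absurd (e4 ▸ hadj) e
          · exact e4
        · intro e4
          rw [e4]
          exact e3

end Pool.Agent.H77.ER
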